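import Pool.Agent.W734.TWB.Stms

/-! Project TWB: energy of the trial function. -/

set_option autoImplicit false

noncomputable section

namespace Pool.Agent.W585.TWB

open MeasureTheory Set Filter Metric
open Pool.Agent.W734.TWB

/-! ### bounded measurable functions -/

def Bd {X : Type*} [MeasurableSpace X] (f : X → ℝ) : Prop := Measurable f ∧ ∃ M : ℝ, ∀ x, |f x| ≤ M

section bd

variable {X : Type*} [MeasurableSpace X]

theorem Bd.mul {f g : X → ℝ} (hf : Bd f) (hg : Bd g) : Bd (fun x => f x * g x) := by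
  obtain ⟨mf, A, hA⟩ := hf
  obtain ⟨mg, B, hB⟩ := hg
  refine ⟨mf.mul mg, A * B, fun x => ?_⟩
  rw [abs_mul]
  exact mul_le_mul (hA x) (hB x) (abs_nonneg _) ((abs_nonneg _).trans (hA x))

theorem Bd.add {f g : X → ℝ} (hf : Bd f) (hg : Bd g) : Bd (fun x => f x + g x) := by
  obtain ⟨mf, A, hA⟩ := hf
  obtain ⟨mg, B, hB⟩ := hg
  exact ⟨mf.add mg, A + B, fun x => (abs_add_le _ _).trans (add_le_add (hA x) (hB x))⟩

theorem Bd.const (c : ℝ) : Bd (fun _ : X => c) := ⟨measurable_const, |c|, fun _ => le_rfl⟩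

theorem Bd.pow {f : X → ℝ} (hf : Bd f) (n : ℕ) : Bd (fun x => f x ^ n) := by
  induction n with
  | zero => simpa using Bd.const 1
  | succ n ih =>
    have := ih.mul hf
    simpa [pow_succ] using this

theorem Bd.prod {ι : Type*} (s : Finset ι) {f : ι → X → ℝ} (h : ∀ i ∈ s, Bd (f i)) :
    Bd (fun x => ∏ i ∈ s, f i x) := by
  classical
  induction s using Finset.induction_on with
  | empty => simpa using Bd.const 1
  | insert a s ha ih =>
    have h2 := (h a (Finset.mem_insert_self _ _)).mul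
      (ih fun i hi => h i (Finset.mem_insert_of_mem hi))
    simpa [Finset.prod_insert ha] using h2

theorem Bd.sum {ι : Type*} (s : Finset ι) {f : ι → X → ℝ} (h : ∀ i ∈ s, Bd (f i)) :
    Bd (fun x => ∑ i ∈ s, f i x) := by
  classical
  induction s using Finset.induction_on with
  | empty => simpa using Bd.const 0
  | insert a s ha ih =>
    have h2 := (h a (Finset.mem_insert_self _ _)).add
      (ih fun i hi => h i (Finset.mem_insert_of_mem hi))
    simpa [Finset.sum_insert ha] using h2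

theorem Bd.comp {Y : Type*} [MeasurableSpace Y] {f : Y → ℝ} (hf : Bd f) {φ : X → Y}
    (hφ : Measurable φ) : Bd (fun x => f (φ x)) := by
  obtain ⟨mf, A, hA⟩ := hf
  exact ⟨mf.comp hφ, A, fun x => hA _⟩

end bd

def BC {X : Type*} [TopologicalSpace X] [MeasurableSpace X] (f : X → ℝ) : Prop :=
  Bd f ∧ ∃ K : Set X, IsCompact K ∧ ∀ x, x ∉ K → f x = 0

theorem BC.mul_bd {X : Type*} [TopologicalSpace X] [MeasurableSpace X] {f g : X → ℝ}
    (hf : BC f) (hg : Bd g) : BC (fun x => f x * g x) := by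
  obtain ⟨bf, K, hK, h0⟩ := hf
  refine ⟨bf.mul hg, K, hK, fun x hx => ?_⟩
  show f x * g x = 0
  rw [h0 x hx, zero_mul]

theorem BC.add {X : Type*} [TopologicalSpace X] [MeasurableSpace X] {f g : X → ℝ}
    (hf : BC f) (hg : BC g) : BC (fun x => f x + g x) := by
  obtain ⟨bf, K, hK, h0⟩ := hf
  obtain ⟨bg, L, hL, h1⟩ := hg
  refine ⟨bf.add bg, K ∪ L, hK.union hL, fun x hx => ?_⟩
  rw [Set.mem_union, not_or] at hx
  show f x + g x = 0
  rw [h0 x hx.1, h1 x hx.2, add_zero]

theorem BC.int {N : ℕ} {f : Cfg N → ℝ} (hf : BC f) : Integrable f := by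
  obtain ⟨⟨mf, M, hM⟩, K, hK, h0⟩ := hf
  have h1 : Integrable (K.indicator (fun _ : Cfg N => M)) := by
    rw [integrable_indicator_iff hK.measurableSet]
    exact integrableOn_const hK.measure_lt_top.ne
  refine h1.mono' mf.aestronglyMeasurable ?_
  filter_upwards with x
  by_cases hx : x ∈ K
  · rw [Set.indicator_of_mem hx]
    exact hM x
  · rw [Set.indicator_of_notMem hx, h0 x hx, norm_zero]

theorem bc_of_cont {X : Type*} [TopologicalSpace X] [MeasurableSpace X] [OpensMeasurableSpace X]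
    {f : X → ℝ} (hc : Continuous f) (hs : HasCompactSupport f) : BC f := by
  obtain ⟨C, hC⟩ := hc.bounded_above_of_compact_support hs
  exact ⟨⟨hc.measurable, C, hC⟩, tsupport f, hs, fun x hx => image_eq_zero_of_notMem_tsupport hx⟩

/-! ### one particle functions -/

theorem bc_nu {u : E3 → ℂ} (hu : Orb u) : BC (fun z => ‖u z‖ ^ 2) := by
  apply bc_of_cont
  · exact (hu.diff.continuous.norm).pow 2
  · have h := hu.supp
    apply h.mono'
    intro z hz
    apply subset_tsupport
    simp only [Function.mem_support] at hz ⊢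
    intro h0
    apply hz
    rw [h0]
    simp

theorem bc_g3 {u : E3 → ℂ} (hu : Orb u) : BC (g3 u) := by
  apply bc_of_cont
  · unfold g3
    apply continuous_finsetSum
    intro k _
    exact (((hu.diff.continuous_fderiv (by simp)).clm_apply continuous_const).norm).pow 2
  · apply (hu.supp.fderiv (𝕜 := ℝ)).mono'
    intro z hz
    apply subset_tsupport
    simp only [Function.mem_support] at hz ⊢
    intro h0
    apply hz
    unfold g3
    rw [h0]
    simp

theorem bc_vu {u : E3 → ℂ} (hu : Orb u) {Vext : E3 → ℝ} (hV : AdmE Vext) :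
    BC (fun z => Vext z * ‖u z‖ ^ 2) := by
  obtain ⟨⟨m1, A, hA⟩, -⟩ := bc_nu hu
  obtain ⟨M, hM⟩ := hV.loc (tsupport u) hu.supp
  refine ⟨⟨hV.meas.mul m1, |M| * A, fun z => ?_⟩, tsupport u, hu.supp, fun z hz => ?_⟩
  · by_cases hz : z ∈ tsupport u
    · rw [abs_mul]
      exact mul_le_mul ((hM z hz).trans (le_abs_self _)) (hA z) (abs_nonneg _) (abs_nonneg _)
    · show |Vext z * ‖u z‖ ^ 2| ≤ |M| * A
      rw [image_eq_zero_of_notMem_tsupport hz]
      simp only [norm_zero, ne_eq, OfNat.ofNat_ne_zero, not_false_eq_true, zero_pow, mul_zero,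
        abs_zero]
      exact mul_nonneg (abs_nonneg _) ((abs_nonneg _).trans (hA 0))
  · show Vext z * ‖u z‖ ^ 2 = 0
    rw [image_eq_zero_of_notMem_tsupport hz]
    simp

theorem bc_wu {u : E3 → ℂ} (hu : Orb u) {N : ℕ} : BC (wu u : Cfg N → ℝ) := by
  obtain ⟨b1, K, hK, h0⟩ := bc_nu hu
  refine ⟨?_, Set.univ.pi fun _ => K, isCompact_univ_pi fun _ => hK, fun x hx => ?_⟩
  · exact Bd.prod Finset.univ fun i _ => b1.comp (φ := fun x : Cfg N => x i) (measurable_pi_apply i)
  · simp only [Set.mem_pi, Set.mem_univ, forall_const, not_forall] at hx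
    obtain ⟨i, hi⟩ := hx
    unfold wu
    exact Finset.prod_eq_zero (Finset.mem_univ i) (h0 _ hi)

theorem bc_wh {u : E3 → ℂ} (hu : Orb u) {h : E3 → ℝ} (hh : BC h) {N : ℕ} (m : Fin N) :
    BC (wh h u m) := by
  obtain ⟨b1, K, hK, h0⟩ := bc_nu hu
  obtain ⟨b2, L, hL, h1⟩ := hh
  refine ⟨?_, Set.univ.pi fun _ => K ∪ L, isCompact_univ_pi fun _ => hK.union hL, fun x hx => ?_⟩
  · exact (b2.comp (φ := fun x : Cfg N => x m) (measurable_pi_apply m)).mul
      (Bd.prod (Finset.univ.erase m) fun i _ =>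
        b1.comp (φ := fun x : Cfg N => x i) (measurable_pi_apply i))
  · simp only [Set.mem_pi, Set.mem_univ, forall_const, not_forall] at hx
    obtain ⟨i, hi⟩ := hx
    rw [Set.mem_union, not_or] at hi
    unfold wh
    by_cases him : i = m
    · subst him
      rw [h1 _ hi.2, zero_mul]
    · rw [Finset.prod_eq_zero (i := i) (Finset.mem_erase.mpr ⟨him, Finset.mem_univ i⟩) (h0 _ hi.1),
        mul_zero]

/-! ### correlation functions -/

theorem bd_g3r {R : ℝ} {f : E3 → ℝ} (hf : PairF R f) : Bd (g3r f) := by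
  have hd : ContDiff ℝ ((⊤ : ℕ∞) : WithTop ℕ∞) (fun x => f x - 1) := hf.diff.sub contDiff_const
  have hs : HasCompactSupport (fun x => f x - 1) := by
    apply HasCompactSupport.intro (isCompact_closedBall (0 : E3) R)
    intro x hx
    rw [mem_closedBall, dist_zero_right, not_le] at hx
    rw [hf.one x hx.le, sub_self]
  have he : ∀ x, fderiv ℝ f x = fderiv ℝ (fun x => f x - 1) x := fun x => (fderiv_sub_const 1).symm
  have hb : BC (g3r f) := by
    apply bc_of_cont
    · unfold g3r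
      apply continuous_finsetSum
      intro k _
      exact ((hf.diff.continuous_fderiv (by simp)).clm_apply continuous_const).pow 2
    · apply (hs.fderiv (𝕜 := ℝ)).mono'
      intro z hz
      apply subset_tsupport
      simp only [Function.mem_support] at hz ⊢
      intro h0
      apply hz
      unfold g3r
      rw [he, h0]
      simp
  exact hb.1

theorem bd_g6r {R : ℝ} {f : E3 × E3 → ℝ} (hf : TripF R f) : Bd (g6r f) := by
  have hs : HasCompactSupport (fun x => f x - 1) := by
    apply HasCompactSupport.intro (isCompact_closedBall (0 : E3 × E3) R)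
    intro x hx
    rw [mem_closedBall, dist_zero_right, not_le] at hx
    rw [hf.one x hx.le, sub_self]
  have he : ∀ x, fderiv ℝ f x = fderiv ℝ (fun x => f x - 1) x := fun x => (fderiv_sub_const 1).symm
  have hb : BC (g6r f) := by
    apply bc_of_cont
    · unfold g6r
      apply continuous_finsetSum
      intro k _
      exact ((((hf.diff.continuous_fderiv (by simp)).clm_apply continuous_const).pow 2).add
        (((hf.diff.continuous_fderiv (by simp)).clm_apply continuous_const).pow 2)).add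
        (((hf.diff.continuous_fderiv (by simp)).clm_apply continuous_const).pow 2)
    · apply (hs.fderiv (𝕜 := ℝ)).mono'
      intro z hz
      apply subset_tsupport
      simp only [Function.mem_support] at hz ⊢
      intro h0
      apply hz
      unfold g6r
      rw [he, h0]
      simp
  exact hb.1

theorem bd_nr {N : ℕ} (r : ℝ) (m a : Fin N) : Bd (nr r m a : Cfg N → ℝ) := by
  refine ⟨?_, 1, fun x => ?_⟩
  · unfold nr
    apply Measurable.ite _ measurable_const measurable_const
    apply measurableSet_le _ measurable_const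
    fun_prop
  · unfold nr
    split_ifs <;> simp

theorem bd_errT {N : ℕ} {f1 : E3 → ℝ} {f2 : E3 × E3 → ℝ}
    (hJ : ∀ A : Finset (Fin N), Bd (JA f1 f2 A)) (R : ℝ) (q : ℕ) (t : Fin q → Bool) (m : Fin N) :
    Bd (errT f1 f2 R q t m) := by
  unfold errT
  apply Bd.sum
  intro a _
  exact (Bd.prod _ fun l _ => bd_nr _ _ _).mul ((hJ _).pow 2)

theorem bd_errA {N : ℕ} {f1 : E3 → ℝ} {f2 : E3 × E3 → ℝ}
    (hJ : ∀ A : Finset (Fin N), Bd (JA f1 f2 A)) (R : ℝ) (m : Fin N) :
    Bd (errA f1 f2 R m) := by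
  unfold errA
  exact ((((((((Bd.const _).mul (bd_errT hJ _ _ _ _)).add
    ((Bd.const _).mul (bd_errT hJ _ _ _ _))).add
    ((Bd.const _).mul (bd_errT hJ _ _ _ _))).add
    ((Bd.const _).mul (bd_errT hJ _ _ _ _))).add
    ((Bd.const _).mul (bd_errT hJ _ _ _ _))).add
    ((Bd.const _).mul (bd_errT hJ _ _ _ _))).add
    ((Bd.const _).mul (bd_errT hJ _ _ _ _)))

theorem split4 {N : ℕ} (c : ℝ) {a1 a2 a3 a4 : Cfg N → ℝ} (h1 : Integrable a1)
    (h2 : Integrable a2) (h3 : Integrable a3) (h4 : Integrable a4) :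
    ∫ x, (a1 x + a2 x + a3 x + c * a4 x) =
      (∫ x, a1 x) + (∫ x, a2 x) + (∫ x, a3 x) + c * ∫ x, a4 x := by
  have e12 : Integrable (fun x => a1 x + a2 x) := h1.add h2
  have e123 : Integrable (fun x => a1 x + a2 x + a3 x) := e12.add h3
  rw [integral_add e123 (h4.const_mul c), integral_add e12 h3, integral_add h1 h2,
    integral_const_mul]

theorem uen : S_SYM → S_JAB → S_PWK → S_ERR → S_UEN := by
  intro hSYM hJAB hPWK hERR Vext W V hE hW hV u hu R1 R2 f1 f2 hR1 hR2 hf1 hf2
  obtain ⟨C0, R, hC0, hR, hpw⟩ := hPWK u hu R1 R2 f1 f2 hR1 hR2 hf1 hf2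
  obtain ⟨C1, hC1, herr⟩ := hERR u hu R1 R2 f1 f2 hR1 hR2 hf1 hf2 R hR
  refine ⟨C0 * C1, mul_pos hC0 hC1, ?_⟩
  filter_upwards [herr, eventually_ge_atTop 1] with N hN hN1
  obtain ⟨hJc, hJ01, hJmono, -, hJ2, hJ3, -⟩ := hJAB R1 R2 f1 f2 hf1 hf2 N
  obtain ⟨-, -, -, hPsi⟩ := hSYM u hu R1 R2 f1 f2 hf1 hf2 N
  have hJ : ∀ A : Finset (Fin N), Bd (JA f1 f2 A) := fun A =>
    ⟨(hJc A).continuous.measurable, 1, fun x => by
      rw [abs_of_nonneg (hJ01 A x).1]; exact (hJ01 A x).2⟩
  have hV0 : ∀ x, 0 ≤ Vext x := by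
    obtain ⟨c, α, hc, -, h⟩ := hE.low
    intro x
    exact (mul_nonneg hc.le (Real.rpow_nonneg (norm_nonneg _) _)).trans (h x)
  have hP0 : ∀ x : Cfg N, 0 ≤ wu u x := fun x => Finset.prod_nonneg fun i _ => by positivity
  have hN0 : (0 : ℝ) ≤ (N : ℝ) := Nat.cast_nonneg N
  -- integrability
  have bf1 : Bd f1 := ⟨hf1.diff.continuous.measurable, 1, fun x => by
    rw [abs_of_nonneg (hf1.nonneg x)]; exact hf1.le_one x⟩
  have bf2 : Bd f2 := ⟨hf2.diff.continuous.measurable, 1, fun x => by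
    rw [abs_of_nonneg (hf2.nonneg x)]; exact hf2.le_one x⟩
  have bW : Bd W := by
    obtain ⟨M, hM⟩ := hW.bdd
    exact ⟨hW.meas, M, fun x => by rw [abs_of_nonneg (hW.nonneg x)]; exact hM x⟩
  have bV : Bd V := by
    obtain ⟨M, hM⟩ := hV.bdd
    exact ⟨hV.meas, M, fun x => by rw [abs_of_nonneg (hV.nonneg x)]; exact hM x⟩
  have m2 : ∀ i j : Fin N, Measurable (fun x : Cfg N => (N : ℝ) • (x i - x j)) := by
    intro i j
    fun_prop
  have m3 : ∀ i j k : Fin N,
      Measurable (fun x : Cfg N => Real.sqrt N • (x i - x j, x i - x k)) := by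
    intro i j k
    fun_prop
  have iA : ∀ m : Fin N, Integrable (fun x : Cfg N =>
      wh (fun z => g3 u z + Vext z * ‖u z‖ ^ 2) u m x
        * (JA f1 f2 (Finset.univ.erase m) x) ^ 2) := fun m =>
    ((bc_wh hu ((bc_g3 hu).add (bc_vu hu hE)) m).mul_bd ((hJ _).pow 2)).int
  have iB : ∀ i j : Fin N, Integrable (fun x : Cfg N => wu u x *
          ((N : ℝ) ^ 2 * (2 * g3r f1 ((N : ℝ) • (x i - x j))
              + W ((N : ℝ) • (x i - x j)) * f1 ((N : ℝ) • (x i - x j)) ^ 2)
            * (JA f1 f2 (Finset.univ \ {i, j}) x) ^ 2)) := fun i j =>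
    ((bc_wu hu).mul_bd (((Bd.const _).mul (((Bd.const _).mul ((bd_g3r hf1).comp (m2 i j))).add
      ((bW.comp (m2 i j)).mul ((bf1.comp (m2 i j)).pow 2)))).mul ((hJ _).pow 2))).int
  have iC : ∀ i j k : Fin N, Integrable (fun x : Cfg N => wu u x *
          ((N : ℝ) * (g6r f2 (Real.sqrt N • (x i - x j, x i - x k))
              + V (Real.sqrt N • (x i - x j, x i - x k))
                * f2 (Real.sqrt N • (x i - x j, x i - x k)) ^ 2)
            * (JA f1 f2 (Finset.univ \ {i, j, k}) x) ^ 2)) := fun i j k =>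
    ((bc_wu hu).mul_bd (((Bd.const _).mul (((bd_g6r hf2).comp (m3 i j k)).add
      ((bV.comp (m3 i j k)).mul ((bf2.comp (m3 i j k)).pow 2)))).mul ((hJ _).pow 2))).int
  have iD : ∀ m : Fin N, Integrable (fun x : Cfg N =>
      wh (fun z => g3 u z + ‖u z‖ ^ 2) u m x * errA f1 f2 R m x) := fun m =>
    ((bc_wh hu ((bc_g3 hu).add (bc_nu hu)) m).mul_bd (bd_errA hJ R m)).int
  have IA := integrable_finsetSum Finset.univ fun m _ => iA m
  have IB := integrable_finsetSum Finset.univ fun (i : Fin N) _ =>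
    integrable_finsetSum (Finset.Ioi i) fun j _ => iB i j
  have IC := integrable_finsetSum Finset.univ fun (i : Fin N) _ =>
    integrable_finsetSum (Finset.Ioi i) fun j _ =>
      integrable_finsetSum (Finset.Ioi j) fun k _ => iC i j k
  have ID := integrable_finsetSum Finset.univ fun m _ => iD m
  have hmono : enN N Vext W V (Psi N f1 f2 u) ≤ ∫ x : Cfg N,
      ((((∑ m : Fin N, wh (fun z => g3 u z + Vext z * ‖u z‖ ^ 2) u m x
        * (JA f1 f2 (Finset.univ.erase m) x) ^ 2) +
      (∑ i : Fin N, ∑ j ∈ Finset.Ioi i, wu u x *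
          ((N : ℝ) ^ 2 * (2 * g3r f1 ((N : ℝ) • (x i - x j))
              + W ((N : ℝ) • (x i - x j)) * f1 ((N : ℝ) • (x i - x j)) ^ 2)
            * (JA f1 f2 (Finset.univ \ {i, j}) x) ^ 2))) +
      (∑ i : Fin N, ∑ j ∈ Finset.Ioi i, ∑ k ∈ Finset.Ioi j, wu u x *
          ((N : ℝ) * (g6r f2 (Real.sqrt N • (x i - x j, x i - x k))
              + V (Real.sqrt N • (x i - x j, x i - x k))
                * f2 (Real.sqrt N • (x i - x j, x i - x k)) ^ 2)
            * (JA f1 f2 (Finset.univ \ {i, j, k}) x) ^ 2))) +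
      C0 * ∑ m : Fin N, wh (fun z => g3 u z + ‖u z‖ ^ 2) u m x * errA f1 f2 R m x) := by
    unfold enN
    apply integral_mono_of_nonneg
    · filter_upwards with x
      simp only [Pi.zero_apply]
      have h1 : 0 ≤ kin (Psi N f1 f2 u) x := Finset.sum_nonneg fun i _ =>
        Finset.sum_nonneg fun k _ => by positivity
      have h2 : 0 ≤ (∑ i : Fin N, Vext (x i)) := Finset.sum_nonneg fun i _ => hV0 _
      have h3 : 0 ≤ pairS (Wn N W) x := Finset.sum_nonneg fun i _ => Finset.sum_nonneg fun j _ =>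
        mul_nonneg (by positivity) (hW.nonneg _)
      have h4 : 0 ≤ tripS (Vn N V) x := Finset.sum_nonneg fun i _ => Finset.sum_nonneg fun j _ =>
        Finset.sum_nonneg fun k _ => mul_nonneg (by positivity) (hV.nonneg _)
      positivity
    · exact ((IA.add IB).add IC).add (ID.const_mul C0)
    · filter_upwards with x
      have hk := hpw N hN1 x
      have hq := hPsi x
      have a1 : (∑ m : Fin N, wh (g3 u) u m x * (JA f1 f2 (Finset.univ.erase m) x) ^ 2) +
          (∑ i : Fin N, Vext (x i)) * ‖Psi N f1 f2 u x‖ ^ 2 ≤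
          ∑ m : Fin N, wh (fun z => g3 u z + Vext z * ‖u z‖ ^ 2) u m x
            * (JA f1 f2 (Finset.univ.erase m) x) ^ 2 := by
        rw [Finset.sum_mul, ← Finset.sum_add_distrib]
        apply Finset.sum_le_sum
        intro m _
        rw [hq]
        have e1 : wu u x = ‖u (x m)‖ ^ 2 * ∏ i ∈ Finset.univ.erase m, ‖u (x i)‖ ^ 2 :=
          (Finset.mul_prod_erase Finset.univ (fun i => ‖u (x i)‖ ^ 2) (Finset.mem_univ m)).symm
        rw [e1]
        unfold wh
        have h0 : (0 : ℝ) ≤ ∏ i ∈ Finset.univ.erase m, ‖u (x i)‖ ^ 2 :=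
          Finset.prod_nonneg fun i _ => by positivity
        have h1 : (JA f1 f2 Finset.univ x) ^ 2 ≤ (JA f1 f2 (Finset.univ.erase m) x) ^ 2 :=
          pow_le_pow_left₀ (hJ01 _ x).1 (hJmono _ _ (Finset.erase_subset _ _) x) 2
        have h2 := mul_le_mul_of_nonneg_left h1
          (mul_nonneg (hV0 (x m)) (mul_nonneg (sq_nonneg ‖u (x m)‖) h0))
        simp only
        nlinarith [h2]
      have a2 : (∑ i : Fin N, ∑ j ∈ Finset.Ioi i, wu u x *
          ((N : ℝ) ^ 2 * (2 * g3r f1 ((N : ℝ) • (x i - x j)))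
            * (JA f1 f2 (Finset.univ \ {i, j}) x) ^ 2)) +
          pairS (Wn N W) x * ‖Psi N f1 f2 u x‖ ^ 2 ≤
          ∑ i : Fin N, ∑ j ∈ Finset.Ioi i, wu u x *
            ((N : ℝ) ^ 2 * (2 * g3r f1 ((N : ℝ) • (x i - x j))
              + W ((N : ℝ) • (x i - x j)) * f1 ((N : ℝ) • (x i - x j)) ^ 2)
            * (JA f1 f2 (Finset.univ \ {i, j}) x) ^ 2) := by
        unfold pairS
        rw [Finset.sum_mul, ← Finset.sum_add_distrib]
        apply Finset.sum_le_sum
        intro i _
        rw [Finset.sum_mul, ← Finset.sum_add_distrib]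
        apply Finset.sum_le_sum
        intro j hj
        rw [Finset.mem_Ioi] at hj
        rw [hq]
        unfold Wn
        have h1 : (JA f1 f2 Finset.univ x) ^ 2 ≤
            (f1 ((N : ℝ) • (x i - x j)) * JA f1 f2 (Finset.univ \ {i, j}) x) ^ 2 :=
          pow_le_pow_left₀ (hJ01 _ x).1
            (hJ2 _ i j (Finset.mem_univ _) (Finset.mem_univ _) hj x) 2
        have h2 := mul_le_mul_of_nonneg_left h1
          (mul_nonneg (mul_nonneg (sq_nonneg (N : ℝ)) (hW.nonneg ((N : ℝ) • (x i - x j)))) (hP0 x))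
        nlinarith [h2]
      have a3 : (∑ i : Fin N, ∑ j ∈ Finset.Ioi i, ∑ k ∈ Finset.Ioi j, wu u x *
          ((N : ℝ) * g6r f2 (Real.sqrt N • (x i - x j, x i - x k))
            * (JA f1 f2 (Finset.univ \ {i, j, k}) x) ^ 2)) +
          tripS (Vn N V) x * ‖Psi N f1 f2 u x‖ ^ 2 ≤
          ∑ i : Fin N, ∑ j ∈ Finset.Ioi i, ∑ k ∈ Finset.Ioi j, wu u x *
          ((N : ℝ) * (g6r f2 (Real.sqrt N • (x i - x j, x i - x k))
              + V (Real.sqrt N • (x i - x j, x i - x k))
                * f2 (Real.sqrt N • (x i - x j, x i - x k)) ^ 2)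
            * (JA f1 f2 (Finset.univ \ {i, j, k}) x) ^ 2) := by
        unfold tripS
        rw [Finset.sum_mul, ← Finset.sum_add_distrib]
        apply Finset.sum_le_sum
        intro i _
        rw [Finset.sum_mul, ← Finset.sum_add_distrib]
        apply Finset.sum_le_sum
        intro j hj
        rw [Finset.sum_mul, ← Finset.sum_add_distrib]
        apply Finset.sum_le_sum
        intro k hk
        rw [Finset.mem_Ioi] at hj hk
        rw [hq]
        unfold Vn
        have h1 : (JA f1 f2 Finset.univ x) ^ 2 ≤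
            (f2 (Real.sqrt N • (x i - x j, x i - x k)) *
              JA f1 f2 (Finset.univ \ {i, j, k}) x) ^ 2 :=
          pow_le_pow_left₀ (hJ01 _ x).1
            (hJ3 _ i j k (Finset.mem_univ _) (Finset.mem_univ _) (Finset.mem_univ _) hj hk x) 2
        have h2 := mul_le_mul_of_nonneg_left h1
          (mul_nonneg (mul_nonneg hN0 (hV.nonneg (Real.sqrt N • (x i - x j, x i - x k)))) (hP0 x))
        nlinarith [h2]
      linarith [hk, a1, a2, a3]
  refine hmono.trans ((split4 C0 IA IB IC ID).le.trans ?_)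
  rw [integral_finsetSum _ (fun m _ => iA m), integral_finsetSum _ (fun m _ => iD m)]
  have eB : ∫ x : Cfg N, (∑ i : Fin N, ∑ j ∈ Finset.Ioi i, wu u x *
          ((N : ℝ) ^ 2 * (2 * g3r f1 ((N : ℝ) • (x i - x j))
              + W ((N : ℝ) • (x i - x j)) * f1 ((N : ℝ) • (x i - x j)) ^ 2)
            * (JA f1 f2 (Finset.univ \ {i, j}) x) ^ 2)) =
      ∑ i : Fin N, ∑ j ∈ Finset.Ioi i, ∫ x : Cfg N, wu u x *
          ((N : ℝ) ^ 2 * (2 * g3r f1 ((N : ℝ) • (x i - x j))
              + W ((N : ℝ) • (x i - x j)) * f1 ((N : ℝ) • (x i - x j)) ^ 2)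
            * (JA f1 f2 (Finset.univ \ {i, j}) x) ^ 2) := by
    rw [integral_finsetSum _ (fun i _ => integrable_finsetSum _ fun j _ => iB i j)]
    apply Finset.sum_congr rfl
    intro i _
    exact integral_finsetSum _ fun j _ => iB i j
  have eC : ∫ x : Cfg N, (∑ i : Fin N, ∑ j ∈ Finset.Ioi i, ∑ k ∈ Finset.Ioi j, wu u x *
          ((N : ℝ) * (g6r f2 (Real.sqrt N • (x i - x j, x i - x k))
              + V (Real.sqrt N • (x i - x j, x i - x k))
                * f2 (Real.sqrt N • (x i - x j, x i - x k)) ^ 2)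
            * (JA f1 f2 (Finset.univ \ {i, j, k}) x) ^ 2)) =
      ∑ i : Fin N, ∑ j ∈ Finset.Ioi i, ∑ k ∈ Finset.Ioi j, ∫ x : Cfg N, wu u x *
          ((N : ℝ) * (g6r f2 (Real.sqrt N • (x i - x j, x i - x k))
              + V (Real.sqrt N • (x i - x j, x i - x k))
                * f2 (Real.sqrt N • (x i - x j, x i - x k)) ^ 2)
            * (JA f1 f2 (Finset.univ \ {i, j, k}) x) ^ 2) := by
    rw [integral_finsetSum _ (fun i _ => integrable_finsetSum _ fun j _ =>
      integrable_finsetSum _ fun k _ => iC i j k)]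
    apply Finset.sum_congr rfl
    intro i _
    rw [integral_finsetSum _ (fun j _ => integrable_finsetSum _ fun k _ => iC i j k)]
    apply Finset.sum_congr rfl
    intro j _
    exact integral_finsetSum _ fun k _ => iC i j k
  rw [eB, eC]
  have h5 := mul_le_mul_of_nonneg_left hN hC0.le
  have h6 : C0 * (C1 * Real.sqrt N * ZA f1 f2 u (Finset.univ : Finset (Fin N))) =
      C0 * C1 * Real.sqrt N * ZA f1 f2 u (Finset.univ : Finset (Fin N)) := by ring
  rw [h6] at h5
  linarith

end Pool.Agent.W585.TWB
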